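import Pool.Agent.W217.BE.Stm2

/-!
Project BE, part MINP: minimal primes of the annihilator of a multigraded module.
-/

set_option autoImplicit false

namespace Pool.Agent.W442.BEMINP

open Pool.Agent.W217.BE MvPolynomial

variable {A : Type} [CommRing A] {k : ℕ}

/-- the exponent is supported off `J`. -/
def Off (J : Fin k → Bool) (α : Fin k →₀ ℕ) : Prop := ∀ j, J j = true → α j = 0

lemma prod_off {B : Type} [CommRing B] (J : Fin k → Bool) (g : Fin k → B) (α : Fin k →₀ ℕ)
    (h : Off J α) :
    (α.prod fun j e => (if J j = true then 0 else g j) ^ e) = α.prod fun j e => g j ^ e := by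
  unfold Finsupp.prod
  refine Finset.prod_congr rfl fun j hj => ?_
  have h1 : α j ≠ 0 := Finsupp.mem_support_iff.mp hj
  have h2 : ¬ J j = true := fun h3 => h1 (h j h3)
  beta_reduce
  rw [if_neg h2]

lemma prod_not_off {B : Type} [CommRing B] (J : Fin k → Bool) (g : Fin k → B)
    (α : Fin k →₀ ℕ) (h : ¬ Off J α) :
    (α.prod fun j e => (if J j = true then 0 else g j) ^ e) = 0 := by
  unfold Off at h
  push Not at h
  obtain ⟨j, hj, hne⟩ := h
  unfold Finsupp.prod
  refine Finset.prod_eq_zero (Finsupp.mem_support_iff.mpr hne) ?_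
  beta_reduce
  rw [if_pos hj, zero_pow hne]

/-- reduction modulo `q` and the variables of `J`. -/
noncomputable def psi (q : Ideal A) (J : Fin k → Bool) :
    MvPolynomial (Fin k) A →+* MvPolynomial (Fin k) (A ⧸ q) :=
  MvPolynomial.eval₂Hom ((MvPolynomial.C).comp (Ideal.Quotient.mk q))
    (fun j => if J j = true then 0 else MvPolynomial.X j)

open Classical in
lemma psi_monomial (q : Ideal A) (J : Fin k → Bool) (α : Fin k →₀ ℕ) (a : A) :
    psi q J (monomial α a) =
      if Off J α then monomial α (Ideal.Quotient.mk q a) else 0 := by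
  unfold psi
  rw [MvPolynomial.eval₂Hom_monomial]
  by_cases h : Off J α
  · rw [if_pos h, prod_off J _ α h, RingHom.comp_apply, MvPolynomial.monomial_eq]
  · rw [if_neg h, prod_not_off J _ α h, mul_zero]

open Classical in
lemma coeff_psi (q : Ideal A) (J : Fin k → Bool) (f : MvPolynomial (Fin k) A) :
    ∀ α : Fin k →₀ ℕ, Off J α →
    coeff α (psi q J f) = Ideal.Quotient.mk q (coeff α f) := by
  induction f using MvPolynomial.induction_on' with
  | monomial u a =>
    intro α hα
    rw [psi_monomial, coeff_monomial]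
    by_cases h : Off J u
    · rw [if_pos h, coeff_monomial]
      by_cases h2 : u = α
      · rw [if_pos h2, if_pos h2]
      · rw [if_neg h2, if_neg h2, map_zero]
    · rw [if_neg h, coeff_zero]
      have h2 : u ≠ α := fun h3 => h (h3 ▸ hα)
      rw [if_neg h2, map_zero]
  | add p r hp hr =>
    intro α hα
    rw [map_add, coeff_add, hp α hα, hr α hα, coeff_add, map_add]

lemma psi_eq_zero (q : Ideal A) (J : Fin k → Bool) (f : MvPolynomial (Fin k) A)
    (h : ∀ α, Off J α → coeff α f ∈ q) : psi q J f = 0 := by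
  classical
  conv_lhs => rw [MvPolynomial.as_sum f]
  rw [map_sum]
  refine Finset.sum_eq_zero fun α _ => ?_
  rw [psi_monomial]
  by_cases h2 : Off J α
  · rw [if_pos h2, Ideal.Quotient.eq_zero_iff_mem.mpr (h α h2), monomial_zero]
  · rw [if_neg h2]

open Classical in
lemma chiJ_monomial {κ : Type} [Field κ] (χ : A →+* κ) (J : Fin k → Bool) (α : Fin k →₀ ℕ)
    (a : A) : chiJ χ J (monomial α a) = if Off J α then χ a else 0 := by
  unfold chiJ
  rw [MvPolynomial.eval₂Hom_monomial]
  by_cases h : Off J α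
  · rw [if_pos h, prod_off J _ α h]
    simp
  · rw [if_neg h, prod_not_off J _ α h, mul_zero]

lemma chiJ_eq_zero {κ : Type} [Field κ] (χ : A →+* κ) (J : Fin k → Bool)
    (f : MvPolynomial (Fin k) A) (h : ∀ α, Off J α → χ (coeff α f) = 0) : chiJ χ J f = 0 := by
  classical
  conv_lhs => rw [MvPolynomial.as_sum f]
  rw [map_sum]
  refine Finset.sum_eq_zero fun α _ => ?_
  rw [chiJ_monomial]
  by_cases h2 : Off J α
  · rw [if_pos h2, h α h2]
  · rw [if_neg h2]

lemma chi_eq_zero_iff (q : Ideal A) [q.IsPrime] (a : A) : chi q a = 0 ↔ a ∈ q := by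
  unfold chi
  rw [RingHom.comp_apply, IsLocalRing.residue_eq_zero_iff,
    IsLocalization.AtPrime.to_map_mem_maximal_iff (Localization.AtPrime q) q]

lemma mono_mem_of_not_off {Q : Ideal (MvPolynomial (Fin k) A)} {J : Fin k → Bool}
    (hJ : ∀ j, J j = true → (MvPolynomial.X j : MvPolynomial (Fin k) A) ∈ Q)
    {α : Fin k →₀ ℕ} (h : ¬ Off J α) (a : A) : monomial α a ∈ Q := by
  unfold Off at h
  push Not at h
  obtain ⟨j, hj, hne⟩ := h
  exact Q.mem_of_dvd (MvPolynomial.X_dvd_monomial.mpr (Or.inr hne)) (hJ j hj)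

lemma mono_mem_off {Q : Ideal (MvPolynomial (Fin k) A)} [Q.IsPrime] {J : Fin k → Bool}
    (hJ : ∀ j, J j = true ↔ (MvPolynomial.X j : MvPolynomial (Fin k) A) ∈ Q)
    {α : Fin k →₀ ℕ} (h : Off J α) (a : A) (hm : monomial α a ∈ Q) :
    (C a : MvPolynomial (Fin k) A) ∈ Q := by
  rw [MvPolynomial.monomial_eq] at hm
  rcases Ideal.IsPrime.mem_or_mem ‹Q.IsPrime› hm with h1 | h1
  · exact h1
  · exfalso
    unfold Finsupp.prod at h1
    obtain ⟨j, hj, hj2⟩ := (Ideal.IsPrime.prod_mem_iff (hp := ‹Q.IsPrime›)).mp h1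
    have h3 := Ideal.IsPrime.mem_of_pow_mem ‹Q.IsPrime› _ hj2
    exact (Finsupp.mem_support_iff.mp hj) (h j ((hJ j).mpr h3))

lemma mono_mem_of_C {Q : Ideal (MvPolynomial (Fin k) A)} {α : Fin k →₀ ℕ} {a : A}
    (h : (C a : MvPolynomial (Fin k) A) ∈ Q) : monomial α a ∈ Q := by
  have h2 : (monomial α a : MvPolynomial (Fin k) A) = C a * monomial α 1 := by
    rw [MvPolynomial.C_mul_monomial, mul_one]
  rw [h2]
  exact Q.mul_mem_right _ h

lemma mem_of_monomials {Q : Ideal (MvPolynomial (Fin k) A)} (f : MvPolynomial (Fin k) A)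
    (h : ∀ α, monomial α (coeff α f) ∈ Q) : f ∈ Q := by
  rw [MvPolynomial.as_sum f]
  exact Q.sum_mem fun α _ => h α

/-- minimality gives an element outside `Q`. -/
lemma exists_mul_pow {R : Type} [CommRing R] {I Q : Ideal R} (hQ : Q ∈ I.minimalPrimes) {x : R}
    (hx : x ∈ Q) : ∃ (s : R) (n : ℕ), s ∉ Q ∧ s * x ^ n ∈ I := by
  have := hQ.1.1
  by_contra hcon
  push Not at hcon
  have hd : Disjoint (I : Set R) ((Q.primeCompl ⊔ Submonoid.powers x : Submonoid R) : Set R) := by
    rw [Set.disjoint_left]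
    intro y hyI hyS
    obtain ⟨s, hs, z, hz, rfl⟩ := Submonoid.mem_sup.mp hyS
    obtain ⟨n, rfl⟩ := hz
    exact hcon s n hs hyI
  obtain ⟨P, hP, hIP, hPS⟩ := Ideal.exists_le_prime_disjoint I _ hd
  have hPQ : P ≤ Q := by
    intro y hy
    by_contra hyQ
    exact Set.disjoint_left.mp hPS hy
      ((le_sup_left : Q.primeCompl ≤ Q.primeCompl ⊔ Submonoid.powers x) hyQ)
  have hQP : Q ≤ P := hQ.2 ⟨hP, hIP⟩ hPQ
  exact Set.disjoint_left.mp hPS (hQP hx)
    ((le_sup_right : Submonoid.powers x ≤ Q.primeCompl ⊔ Submonoid.powers x)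
      (Submonoid.mem_powers x))

theorem main : HOMANN → MINP := by
  intro HH A _ _ k M _ _ _ _ _ ℳ hint hX Q hQ q _ J hq hJ
  have hQp : Q.IsPrime := hQ.1.1
  have hIQ : Module.annihilator (MvPolynomial (Fin k) A) M ≤ Q := hQ.1.2
  have hCq : ∀ a : A, a ∈ q ↔ (C a : MvPolynomial (Fin k) A) ∈ Q := by
    intro a
    rw [hq, Ideal.mem_comap, MvPolynomial.algebraMap_eq]
  -- step 1
  have h1 : ∀ f ∈ Q, ∀ α, Off J α → coeff α f ∈ q := by
    set Q' : Ideal (MvPolynomial (Fin k) A) := RingHom.ker (psi q J) with hQ'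
    have : Q'.IsPrime := RingHom.ker_isPrime _
    have hQ'Q : Q' ≤ Q := by
      intro f hf
      refine mem_of_monomials f fun α => ?_
      by_cases h : Off J α
      · refine mono_mem_of_C ((hCq _).mp ?_)
        have h2 := coeff_psi q J f α h
        rw [(RingHom.mem_ker).mp hf, coeff_zero] at h2
        exact Ideal.Quotient.eq_zero_iff_mem.mp h2.symm
      · exact mono_mem_of_not_off (fun j hj => (hJ j).mp hj) h _
    have hIQ' : Module.annihilator (MvPolynomial (Fin k) A) M ≤ Q' := by
      intro f hf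
      rw [hQ', RingHom.mem_ker]
      refine psi_eq_zero q J f fun α hα => (hCq _).mpr ?_
      exact mono_mem_off hJ hα _ (hIQ (HH A k M ℳ hint hX f hf α))
    have hQQ' : Q ≤ Q' := hQ.2 ⟨‹_›, hIQ'⟩ hQ'Q
    intro f hf α hα
    have h2 := coeff_psi q J f α hα
    rw [(RingHom.mem_ker).mp (hQQ' hf), coeff_zero] at h2
    exact Ideal.Quotient.eq_zero_iff_mem.mp h2.symm
  have h1' : ∀ f : MvPolynomial (Fin k) A, f ∉ Q → ∃ α, Off J α ∧ coeff α f ∉ q := by
    intro f hf
    by_contra hcon
    push Not at hcon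
    refine hf (mem_of_monomials f fun α => ?_)
    by_cases h : Off J α
    · exact mono_mem_of_C ((hCq _).mp (hcon α h))
    · exact mono_mem_of_not_off (fun j hj => (hJ j).mp hj) h _
  have hchi : ∀ f ∈ Q, chiJ (chi q) J f = 0 := fun f hf =>
    chiJ_eq_zero (chi q) J f fun α hα => (chi_eq_zero_iff q _).mpr (h1 f hf α hα)
  refine ⟨?_, ?_, ?_⟩
  · -- nonvanishing
    unfold NZ
    by_contra hcon
    push Not at hcon
    choose s hs hsx using hcon
    obtain ⟨G, hG⟩ := (Module.Finite.fg_top : (⊤ : Submodule (MvPolynomial (Fin k) A) M).FG)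
    have hprod : chiJ (chi q) J (∏ x ∈ G, s x) ≠ 0 := by
      rw [map_prod]
      exact Finset.prod_ne_zero_iff.mpr fun x _ => hs x
    apply hprod
    apply hchi
    apply hIQ
    rw [← Submodule.annihilator_top, ← hG, Submodule.mem_annihilator_span]
    rintro ⟨x, hx⟩
    have hdvd : s x ∣ ∏ x ∈ G, s x := Finset.dvd_prod_of_mem s (by simpa using hx)
    obtain ⟨t, ht⟩ := hdvd
    rw [ht, mul_comm, mul_smul]
    show t • (s x • x) = 0
    rw [hsx x, smul_zero]
  · -- nilpotence
    intro j hj
    obtain ⟨s, n, hs, hsn⟩ := exists_mul_pow hQ ((hJ j).mp hj)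
    obtain ⟨α, hα, hαq⟩ := h1' s hs
    refine ⟨n, monomial α (coeff α s), ?_, ?_⟩
    · classical
      rw [chiJ_monomial, if_pos hα]
      intro h2
      exact hαq ((chi_eq_zero_iff q _).mp h2)
    · have h3 := HH A k M ℳ hint hX _ hsn (α + Finsupp.single j n)
      have h4 : (X j : MvPolynomial (Fin k) A) ^ n = monomial (Finsupp.single j n) 1 := by
        rw [MvPolynomial.X_pow_eq_monomial]
      rw [h4, MvPolynomial.coeff_mul_monomial, mul_one] at h3
      intro x
      have h5 : monomial α (coeff α s) * (X j : MvPolynomial (Fin k) A) ^ n =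
          monomial (α + Finsupp.single j n) (coeff α s) := by
        rw [h4, MvPolynomial.monomial_mul, mul_one]
      rw [h5]
      exact (Module.mem_annihilator.mp h3) x
  · -- height
    have : Q.LiesOver q := ⟨hq⟩
    set K : Ideal (MvPolynomial (Fin k) A) := q.map (algebraMap A (MvPolynomial (Fin k) A))
      with hK
    have hKQ : K ≤ Q := by
      rw [hK, Ideal.map_le_iff_le_comap, ← hq]
    set S : Set (MvPolynomial (Fin k) A ⧸ K) :=
      (fun j => Ideal.Quotient.mk K (X j)) '' {j : Fin k | J j = true} with hS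
    have hmap : Q.map (Ideal.Quotient.mk K) = Ideal.span S := by
      apply le_antisymm
      · rw [Ideal.map_le_iff_le_comap]
        intro f hf
        refine mem_of_monomials f fun α => ?_
        rw [Ideal.mem_comap]
        by_cases h : Off J α
        · have h2 : (monomial α (coeff α f) : MvPolynomial (Fin k) A) ∈ K := by
            refine mono_mem_of_C ?_
            rw [hK, ← MvPolynomial.algebraMap_eq]
            exact Ideal.mem_map_of_mem _ (h1 f hf α h)
          rw [Ideal.Quotient.eq_zero_iff_mem.mpr h2]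
          exact Ideal.zero_mem _
        · unfold Off at h
          push Not at h
          obtain ⟨j, hj, hne⟩ := h
          have hd : (X j : MvPolynomial (Fin k) A) ∣ monomial α (coeff α f) :=
            MvPolynomial.X_dvd_monomial.mpr (Or.inr hne)
          obtain ⟨t, ht⟩ := hd
          rw [ht, map_mul]
          exact Ideal.mul_mem_right _ _ (Ideal.subset_span ⟨j, hj, rfl⟩)
      · rw [Ideal.span_le]
        rintro _ ⟨j, hj, rfl⟩
        exact Ideal.mem_map_of_mem _ ((hJ j).mp hj)
    have hne : Ideal.span S ≠ ⊤ := by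
      rw [← hmap]
      exact (Ideal.isPrime_map_quotientMk_of_isPrime hKQ).ne_top
    have hfin : S.Finite := Set.toFinite _
    have hcard : S.ncard ≤ ∑ j, if J j = true then 1 else 0 := by
      refine (Set.ncard_image_le (Set.toFinite _)).trans ?_
      rw [Set.ncard_eq_toFinset_card', ← Finset.card_filter]
      apply le_of_eq
      congr 1
      ext j
      simp
    refine (Ideal.height_le_height_add_of_liesOver q Q).trans ?_
    refine add_le_add le_rfl ?_
    rw [← hK, hmap]
    refine (Ideal.height_le_spanFinrank _ hne).trans ?_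
    exact_mod_cast (Submodule.spanFinrank_span_le_ncard_of_finite hfin).trans hcard

end Pool.Agent.W442.BEMINP
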